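import Mathlib

set_option autoImplicit false
open scoped InnerProductSpace
namespace Pool.Agent.H.MP_17bf10_co

variable {E : Type*} [NormedAddCommGroup E] [InnerProductSpace ℝ E]

def bh (F : Set E) (ρ : ℝ) : Set E := {x | ∀ c ∈ F, ‖x - c‖ ≤ ρ}

theorem seg_sq (a x c : E) (t : ℝ) :
    ‖a + t • (x - a) - c‖ ^ 2 = (1 - t) * ‖a - c‖ ^ 2 + t * ‖x - c‖ ^ 2 - t * (1 - t) * ‖x - a‖ ^ 2 := by
  have h1 : a + t • (x - a) - c = (a - c) + t • ((x - c) - (a - c)) := by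
    rw [sub_sub_sub_cancel_right]; abel
  have h2 : x - a = (x - c) - (a - c) := by abel
  rw [h1, h2]
  generalize a - c = p
  generalize x - c = q
  rw [norm_add_sq_real, norm_smul, mul_pow, norm_sub_sq_real, inner_smul_right, inner_sub_right,
    real_inner_self_eq_norm_sq, real_inner_comm p q, Real.norm_eq_abs, sq_abs]
  ring

theorem sp (F : Set E) (hF : F.Nonempty) (ρ : ℝ) (a v x : E) (hv : ‖v‖ = 1)
    (ha : a ∈ bh F ρ) (hx : x ∈ bh F ρ)
    (hmax : ∀ z ∈ bh F ρ, ⟪v, z⟫_ℝ ≤ ⟪v, a⟫_ℝ) : ‖(a - ρ • v) - x‖ ≤ ρ := by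
  obtain ⟨c0, hc0⟩ := hF
  have hρ : 0 ≤ ρ := (norm_nonneg _).trans (ha c0 hc0)
  rcases hρ.eq_or_lt with h0 | hpos
  · subst h0
    have h1 : a = c0 := sub_eq_zero.mp (norm_le_zero_iff.mp (ha c0 hc0))
    have h2 : x = c0 := sub_eq_zero.mp (norm_le_zero_iff.mp (hx c0 hc0))
    simp [h1, h2]
  have key : ∀ t : ℝ, 0 < t → t < 1 → 2 * ρ * ⟪v, x - a⟫_ℝ + (1 - t) * ‖x - a‖ ^ 2 ≤ 0 := by
    intro t ht0 ht1
    set δ := t * (1 - t) * ‖x - a‖ ^ 2 / (2 * ρ) with hδ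
    have hδ' : 2 * ρ * δ = t * (1 - t) * ‖x - a‖ ^ 2 := by rw [hδ]; field_simp
    have hδ0 : 0 ≤ δ := by rw [hδ]; have : 0 ≤ 1 - t := by linarith
                           positivity
    have hz : a + t • (x - a) + δ • v ∈ bh F ρ := by
      intro c hc
      have h1 := seg_sq a x c t
      have h2 : ‖a - c‖ ^ 2 ≤ ρ ^ 2 := pow_le_pow_left₀ (norm_nonneg _) (ha c hc) 2
      have h3 : ‖x - c‖ ^ 2 ≤ ρ ^ 2 := pow_le_pow_left₀ (norm_nonneg _) (hx c hc) 2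
      have h4 : ‖a + t • (x - a) - c‖ ^ 2 ≤ ρ ^ 2 - 2 * ρ * δ := by
        rw [h1, hδ']
        have := mul_le_mul_of_nonneg_left h2 (show 0 ≤ 1 - t by linarith)
        have := mul_le_mul_of_nonneg_left h3 ht0.le
        linarith
      have h5 : ‖a + t • (x - a) - c‖ ≤ ρ - δ := by
        generalize ‖a + t • (x - a) - c‖ = z at h4
        by_contra hc
        push Not at hc
        nlinarith [sq_nonneg (z - ρ)]
      have h6 : a + t • (x - a) + δ • v - c = (a + t • (x - a) - c) + δ • v := by abel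
      rw [h6]
      refine (norm_add_le _ _).trans ?_
      rw [norm_smul, hv, Real.norm_eq_abs, abs_of_nonneg hδ0]
      linarith
    have h7 := hmax _ hz
    rw [inner_add_right, inner_add_right, inner_smul_right, inner_smul_right,
      real_inner_self_eq_norm_sq, hv] at h7
    have h8 : t * (2 * ρ * ⟪v, x - a⟫_ℝ + (1 - t) * ‖x - a‖ ^ 2) ≤ 0 := by
      have : t * (2 * ρ * ⟪v, x - a⟫_ℝ + (1 - t) * ‖x - a‖ ^ 2) = 2 * ρ * (t * ⟪v, x - a⟫_ℝ + δ) := by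
        rw [mul_add (2 * ρ), hδ']; ring
      rw [this]
      exact mul_nonpos_of_nonneg_of_nonpos (by linarith) (by linarith)
    by_contra hc
    push Not at hc
    have := mul_pos ht0 hc
    linarith
  have fin : 2 * ρ * ⟪v, x - a⟫_ℝ + ‖x - a‖ ^ 2 ≤ 0 := by
    by_contra hc
    push Not at hc
    generalize 2 * ρ * ⟪v, x - a⟫_ℝ = A at key hc
    have hL : 0 ≤ ‖x - a‖ ^ 2 := sq_nonneg _
    generalize ‖x - a‖ ^ 2 = L at key hc hL
    have hd : 0 < 2 * (A + L) + 2 * L + 1 := by linarith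
    have h1 := key ((A + L) / (2 * (A + L) + 2 * L + 1)) (div_pos hc hd)
      (by rw [div_lt_one hd]; linarith)
    have h2 : (A + L) / (2 * (A + L) + 2 * L + 1) * L < A + L := by
      rw [div_mul_eq_mul_div, div_lt_iff₀ hd]; nlinarith
    linarith
  have h9 : ‖(a - ρ • v) - x‖ ^ 2 ≤ ρ ^ 2 := by
    have : (a - ρ • v) - x = -((x - a) + ρ • v) := by abel
    rw [this, norm_neg, norm_add_sq_real, inner_smul_right, norm_smul, hv, Real.norm_eq_abs,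
      real_inner_comm, mul_one, sq_abs]
    linarith
  exact (pow_le_pow_iff_left₀ (norm_nonneg _) hρ two_ne_zero).mp h9

theorem bh_compact [FiniteDimensional ℝ E] (F : Set E) (hF : F.Nonempty) (ρ : ℝ) :
    IsCompact (bh F ρ) := by
  obtain ⟨c0, hc0⟩ := hF
  have hcl : IsClosed (bh F ρ) := by
    have : bh F ρ = ⋂ c ∈ F, Metric.closedBall c ρ := by
      ext x; simp [bh, dist_eq_norm]
    rw [this]
    exact isClosed_biInter fun c _ => Metric.isClosed_closedBall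
  refine (isCompact_closedBall c0 ρ).of_isClosed_subset hcl ?_
  intro x hx
  rw [mem_closedBall_iff_norm]
  exact hx c0 hc0

omit [InnerProductSpace ℝ E] in
theorem sub_bh (C : Set E) (ρ : ℝ) : C ⊆ bh (bh C ρ) ρ := by
  intro c hc x hx
  rw [norm_sub_rev]; exact hx c hc

theorem touch [FiniteDimensional ℝ E] (C : Set E) (hC : C.Nonempty) (ρ : ℝ)
    (hA : (bh C ρ).Nonempty) (v : E) (hv : ‖v‖ = 1) :
    ∃ y ∈ bh (bh C ρ) ρ, y + ρ • v ∈ bh C ρ := by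
  obtain ⟨a, ha, hmax⟩ := (bh_compact C hC ρ).exists_isMaxOn hA
    (f := fun z => ⟪v, z⟫_ℝ) (by fun_prop)
  refine ⟨a - ρ • v, fun x hx => sp C hC ρ a v x hv ha hx (fun z hz => hmax hz), ?_⟩
  simpa using ha

theorem diam_pair [FiniteDimensional ℝ E] (C : Set E) (hC : C.Nonempty) (ρ : ℝ)
    (hA : (bh C ρ).Nonempty) (u0 : E) (hu0 : ‖u0‖ = 1) :
    ∃ (D : ℝ) (u y1 y2 : E), ‖u‖ = 1 ∧ 0 ≤ D ∧ y1 ∈ bh (bh C ρ) ρ ∧ y2 ∈ bh (bh C ρ) ρ ∧
      y2 = y1 + D • u ∧ (∀ y ∈ bh (bh C ρ) ρ, ∀ y' ∈ bh (bh C ρ) ρ, ‖y - y'‖ ≤ D) ∧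
      y1 + ρ • u ∈ bh C ρ ∧ y2 - ρ • u ∈ bh C ρ := by
  have hY : (bh (bh C ρ) ρ).Nonempty := hC.mono (sub_bh C ρ)
  have hc := bh_compact (bh C ρ) hA ρ
  obtain ⟨⟨y1, y2⟩, ⟨h1, h2⟩, hmax⟩ := (hc.prod hc).exists_isMaxOn (hY.prod hY)
    (f := fun z : E × E => ‖z.2 - z.1‖) (by fun_prop)
  have hD : ∀ y ∈ bh (bh C ρ) ρ, ∀ y' ∈ bh (bh C ρ) ρ, ‖y - y'‖ ≤ ‖y2 - y1‖ :=
    fun y hy y' hy' => hmax (show (y', y) ∈ _ from ⟨hy', hy⟩)
  obtain ⟨u, hu, he⟩ : ∃ u : E, ‖u‖ = 1 ∧ y2 = y1 + ‖y2 - y1‖ • u := by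
    by_cases h : y2 - y1 = 0
    · exact ⟨u0, hu0, by rw [h]; simpa using sub_eq_zero.mp h⟩
    · have hn : ‖y2 - y1‖ ≠ 0 := norm_ne_zero_iff.mpr h
      refine ⟨‖y2 - y1‖⁻¹ • (y2 - y1), by rw [norm_smul, norm_inv, norm_norm]; field_simp, ?_⟩
      rw [smul_smul, mul_inv_cancel₀ hn, one_smul]; abel
  dsimp only at h1 h2
  generalize hDD : ‖y2 - y1‖ = D at hD he
  have hD0 : 0 ≤ D := hDD ▸ norm_nonneg _
  have huu : ⟪u, u⟫_ℝ = 1 := by rw [real_inner_self_eq_norm_sq, hu]; norm_num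
  refine ⟨D, u, y1, y2, hu, hD0, h1, h2, he, hD, ?_, ?_⟩
  · intro c hc
    have := sp (bh C ρ) hA ρ y1 (-u) c (by simpa using hu) h1 (sub_bh C ρ hc) (by
      intro z hz
      have e1 := hD y2 h2 z hz
      have e2 : ⟪u, y2 - z⟫_ℝ ≤ ‖u‖ * ‖y2 - z‖ := real_inner_le_norm _ _
      rw [hu, one_mul, inner_sub_right] at e2
      have e3 : ⟪u, y2⟫_ℝ = ⟪u, y1⟫_ℝ + D := by
        rw [he, inner_add_right, inner_smul_right, huu, mul_one]
      rw [inner_neg_left, inner_neg_left]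
      linarith)
    simpa using this
  · intro c hc
    exact sp (bh C ρ) hA ρ y2 u c hu h2 (sub_bh C ρ hc) (by
      intro z hz
      have e1 := hD z hz y1 h1
      have e2 : ⟪u, z - y1⟫_ℝ ≤ ‖u‖ * ‖z - y1‖ := real_inner_le_norm _ _
      rw [hu, one_mul, inner_sub_right] at e2
      have e3 : ⟪u, y2⟫_ℝ = ⟪u, y1⟫_ℝ + D := by
        rw [he, inner_add_right, inner_smul_right, huu, mul_one]
      linarith)

theorem mem_frontier_of_ball (K : Set E) (x y : E) (hx : x ∈ K)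
    (hK : ∀ z ∈ K, ‖z - y‖ ≤ 1) (hxy : ‖x - y‖ = 1) : x ∈ frontier K := by
  refine ⟨subset_closure hx, fun hi => ?_⟩
  have h1 : K ⊆ Metric.closedBall y 1 := fun z hz => mem_closedBall_iff_norm.mpr (hK z hz)
  have h2 := interior_mono h1 hi
  rw [interior_closedBall y one_ne_zero, mem_ball_iff_norm] at h2
  linarith

theorem far (o y u0 : E) (hu0 : ‖u0‖ = 1) (r ρ : ℝ) (hr : 0 ≤ r)
    (h : ∀ x, ‖x - o‖ ≤ r → ‖x - y‖ ≤ ρ) : ‖o - y‖ + r ≤ ρ := by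
  by_cases h0 : o - y = 0
  · have := h (o + r • u0) (by simp [norm_smul, hu0, abs_of_nonneg hr])
    have e : o + r • u0 - y = r • u0 := by
      rw [add_sub_right_comm, h0, zero_add]
    rw [e, norm_smul, hu0, Real.norm_eq_abs, abs_of_nonneg hr] at this
    rw [h0, norm_zero]; linarith
  · have hn : 0 < ‖o - y‖ := norm_pos_iff.mpr h0
    have := h (o + (r / ‖o - y‖) • (o - y)) (by
      rw [add_sub_cancel_left, norm_smul, Real.norm_eq_abs, abs_of_nonneg (by positivity)]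
      exact le_of_eq (by field_simp))
    have e : o + (r / ‖o - y‖) • (o - y) - y = (1 + r / ‖o - y‖) • (o - y) := by
      rw [add_smul, one_smul]; abel
    rw [e, norm_smul, Real.norm_eq_abs, abs_of_nonneg (by positivity)] at this
    have e2 : (1 + r / ‖o - y‖) * ‖o - y‖ = ‖o - y‖ + r := by field_simp
    linarith

end Pool.Agent.H.MP_17bf10_co
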