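import Pool.Agent.H.MP_17bf10_co.A

set_option autoImplicit false
open scoped InnerProductSpace
namespace Pool.Agent.H.MP_17bf10_co

variable {E : Type*} [NormedAddCommGroup E] [InnerProductSpace ℝ E]

noncomputable def dir (p : ℕ → E) (i : ℕ) : E := ‖p (i + 1) - p i‖⁻¹ • (p (i + 1) - p i)

noncomputable def len (p : ℕ → E) (k : ℕ) : ℝ := ∑ i ∈ Finset.range k, ‖p (i + 1) - p i‖

def T4 (e : ℕ → E) (n : ℕ) (Y : Set E) (B : ℝ) : Prop :=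
  ∀ a b c d : ℕ, a ≤ b → b ≤ c → c ≤ d → d ≤ a + n →
    ∃ y1 ∈ Y, ∃ y2 ∈ Y, ∃ y3 ∈ Y, ∃ y4 ∈ Y,
      ‖e a - e b‖ + ‖e b - e c‖ + ‖e c - e d‖ + ‖e d - e a‖ +
        (⟪e a - e b, y1⟫_ℝ + ⟪e b - e c, y2⟫_ℝ + ⟪e c - e d, y3⟫_ℝ + ⟪e d - e a, y4⟫_ℝ) ≤ B

theorem dir_norm (p : ℕ → E) (i : ℕ) (h : p i ≠ p (i + 1)) : ‖dir p i‖ = 1 := by
  have : ‖p (i + 1) - p i‖ ≠ 0 := norm_ne_zero_iff.mpr (sub_ne_zero.mpr h.symm)
  rw [dir, norm_smul, norm_inv, norm_norm]; field_simp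

theorem dir_smul (p : ℕ → E) (i : ℕ) (h : p i ≠ p (i + 1)) :
    ‖p (i + 1) - p i‖ • dir p i = p (i + 1) - p i := by
  have : ‖p (i + 1) - p i‖ ≠ 0 := norm_ne_zero_iff.mpr (sub_ne_zero.mpr h.symm)
  rw [dir, smul_smul, mul_inv_cancel₀ this, one_smul]

theorem tele (p : ℕ → E) (hne : ∀ i, p i ≠ p (i + 1)) (Z : E)
    (h : ∀ i, 0 ≤ ⟪dir p (i + 1) - dir p i, Z - p (i + 1)⟫_ℝ) (a b : ℕ) (hab : a ≤ b) :
    ⟪dir p a, Z - p a⟫_ℝ + len p a ≤ ⟪dir p b, Z - p b⟫_ℝ + len p b := by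
  induction b, hab using Nat.le_induction with
  | base => exact le_rfl
  | succ b _ ih =>
    refine ih.trans ?_
    have h1 := h b
    have h2 : ⟪dir p b, p (b + 1) - p b⟫_ℝ = ‖p (b + 1) - p b‖ := by
      conv_lhs => rw [← dir_smul p b (hne b)]
      rw [inner_smul_right, real_inner_self_eq_norm_sq, dir_norm p b (hne b)]; ring
    have h3 : Z - p b = (Z - p (b + 1)) + (p (b + 1) - p b) := by abel
    rw [h3, inner_add_right, h2]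
    rw [inner_sub_left] at h1
    have h4 : len p (b + 1) = len p b + ‖p (b + 1) - p b‖ := by
      unfold len; rw [Finset.sum_range_succ]
    linarith

omit [InnerProductSpace ℝ E] in
theorem len_add (p : ℕ → E) (n : ℕ) (hp : ∀ i, p (i + n) = p i) (a : ℕ) :
    len p (a + n) = len p a + len p n := by
  induction a with
  | zero => simp [len]
  | succ a ih =>
    have h1 : len p (a + 1 + n) = len p (a + n) + ‖p (a + n + 1) - p (a + n)‖ := by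
      unfold len; rw [show a + 1 + n = a + n + 1 by ring, Finset.sum_range_succ]
    have h2 : len p (a + 1) = len p a + ‖p (a + 1) - p a‖ := by
      unfold len; rw [Finset.sum_range_succ]
    rw [h1, h2, ih, show a + n + 1 = a + 1 + n by ring, hp, hp]; ring

theorem dir_per (p : ℕ → E) (n : ℕ) (hp : ∀ i, p (i + n) = p i) (a : ℕ) :
    dir p (a + n) = dir p a := by
  unfold dir; rw [show a + n + 1 = a + 1 + n by ring, hp, hp]

theorem dir_sum (p : ℕ → E) (n : ℕ) (hp : ∀ i, p (i + n) = p i) (hne : ∀ i, p i ≠ p (i + 1)) :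
    ∑ i ∈ Finset.range n, ‖p (i + 1) - p i‖ • dir p i = 0 := by
  simp only [dir_smul p _ (hne _)]
  rw [Finset.sum_range_sub]
  have := hp 0
  rw [zero_add] at this
  rw [this, sub_self]

theorem t4_of (p : ℕ → E) (n : ℕ) (hp : ∀ i, p (i + n) = p i) (hne : ∀ i, p i ≠ p (i + 1))
    (K Y : Set E) (hY : ∀ v : E, ‖v‖ = 1 → ∃ y ∈ Y, y + v ∈ K)
    (h : ∀ i, ∀ Z ∈ K, 0 ≤ ⟪dir p (i + 1) - dir p i, Z - p (i + 1)⟫_ℝ) (B : ℝ) (hB : len p n ≤ B) :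
    T4 (dir p) n Y B := by
  have hw : ∀ w : E, ∃ y ∈ Y, ∃ Z ∈ K, ⟪w, Z⟫_ℝ = ‖w‖ + ⟪w, y⟫_ℝ := by
    intro w
    by_cases h0 : w = 0
    · obtain ⟨y, hy, hy'⟩ := hY _ (dir_norm p 0 (hne 0))
      exact ⟨y, hy, _, hy', by simp [h0]⟩
    · have hn : ‖w‖ ≠ 0 := norm_ne_zero_iff.mpr h0
      obtain ⟨y, hy, hy'⟩ := hY (‖w‖⁻¹ • w) (by rw [norm_smul, norm_inv, norm_norm]; field_simp)
      refine ⟨y, hy, _, hy', ?_⟩
      rw [inner_add_right, inner_smul_right, real_inner_self_eq_norm_sq]; field_simp; ring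
  intro a b c d hab hbc hcd hda
  obtain ⟨y1, hy1, Z1, hZ1, e1⟩ := hw (dir p a - dir p b)
  obtain ⟨y2, hy2, Z2, hZ2, e2⟩ := hw (dir p b - dir p c)
  obtain ⟨y3, hy3, Z3, hZ3, e3⟩ := hw (dir p c - dir p d)
  obtain ⟨y4, hy4, Z4, hZ4, e4⟩ := hw (dir p d - dir p a)
  refine ⟨y1, hy1, y2, hy2, y3, hy3, y4, hy4, ?_⟩
  have t1 := tele p hne Z1 (fun i => h i Z1 hZ1) a b hab
  have t2 := tele p hne Z2 (fun i => h i Z2 hZ2) b c hbc
  have t3 := tele p hne Z3 (fun i => h i Z3 hZ3) c d hcd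
  have t4 := tele p hne Z4 (fun i => h i Z4 hZ4) d (a + n) hda
  rw [len_add p n hp, dir_per p n hp, hp] at t4
  rw [inner_sub_left] at e1 e2 e3 e4
  rw [inner_sub_right, inner_sub_right] at t1 t2 t3 t4
  linarith

theorem quad_scalar (a b c d r1 r2 r3 r4 g12 g13 g14 g23 g24 g34 D : ℝ)
    (ha : 0 ≤ a) (hb : 0 ≤ b) (hc : 0 ≤ c) (hd : 0 ≤ d)
    (h0 : a ^ 2 * r1 ^ 2 + b ^ 2 * r2 ^ 2 + c ^ 2 * r3 ^ 2 + d ^ 2 * r4 ^ 2 + 2 * (a * b * g12) +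
      2 * (a * c * g13) + 2 * (a * d * g14) + 2 * (b * c * g23) + 2 * (b * d * g24) +
      2 * (c * d * g34) = 0)
    (h12 : r1 ^ 2 - 2 * g12 + r2 ^ 2 ≤ D ^ 2) (h13 : r1 ^ 2 - 2 * g13 + r3 ^ 2 ≤ D ^ 2)
    (h14 : r1 ^ 2 - 2 * g14 + r4 ^ 2 ≤ D ^ 2) (h23 : r2 ^ 2 - 2 * g23 + r3 ^ 2 ≤ D ^ 2)
    (h24 : r2 ^ 2 - 2 * g24 + r4 ^ 2 ≤ D ^ 2) (h34 : r3 ^ 2 - 2 * g34 + r4 ^ 2 ≤ D ^ 2) :
    (a * r1 + b * r2 + c * r3 + d * r4) ^ 2 ≤
      D ^ 2 * (a * b + a * c + a * d + b * c + b * d + c * d) := by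
  have k12 := mul_le_mul_of_nonneg_left h12 (mul_nonneg ha hb)
  have k13 := mul_le_mul_of_nonneg_left h13 (mul_nonneg ha hc)
  have k14 := mul_le_mul_of_nonneg_left h14 (mul_nonneg ha hd)
  have k23 := mul_le_mul_of_nonneg_left h23 (mul_nonneg hb hc)
  have k24 := mul_le_mul_of_nonneg_left h24 (mul_nonneg hb hd)
  have k34 := mul_le_mul_of_nonneg_left h34 (mul_nonneg hc hd)
  have s12 := mul_nonneg (mul_nonneg ha hb) (sq_nonneg (r1 - r2))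
  have s13 := mul_nonneg (mul_nonneg ha hc) (sq_nonneg (r1 - r3))
  have s14 := mul_nonneg (mul_nonneg ha hd) (sq_nonneg (r1 - r4))
  have s23 := mul_nonneg (mul_nonneg hb hc) (sq_nonneg (r2 - r3))
  have s24 := mul_nonneg (mul_nonneg hb hd) (sq_nonneg (r2 - r4))
  have s34 := mul_nonneg (mul_nonneg hc hd) (sq_nonneg (r3 - r4))
  linarith

theorem quad_vec (w1 w2 w3 w4 y1 y2 y3 y4 : E) (D : ℝ) (hs : w1 + w2 + w3 + w4 = 0)
    (hP : 0 < ‖w1‖ + ‖w2‖ + ‖w3‖ + ‖w4‖)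
    (h12 : ‖y1 - y2‖ ≤ D) (h13 : ‖y1 - y3‖ ≤ D) (h14 : ‖y1 - y4‖ ≤ D) (h23 : ‖y2 - y3‖ ≤ D)
    (h24 : ‖y2 - y4‖ ≤ D) (h34 : ‖y3 - y4‖ ≤ D) :
    ∃ M : ℝ, 0 ≤ M ∧ -M ≤ ⟪w1, y1⟫_ℝ + ⟪w2, y2⟫_ℝ + ⟪w3, y3⟫_ℝ + ⟪w4, y4⟫_ℝ ∧
      M ^ 2 ≤ D ^ 2 * (‖w1‖ * ‖w2‖ + ‖w1‖ * ‖w3‖ + ‖w1‖ * ‖w4‖ + ‖w2‖ * ‖w3‖ + ‖w2‖ * ‖w4‖ +
        ‖w3‖ * ‖w4‖) := by
  set m : E := (‖w1‖ + ‖w2‖ + ‖w3‖ + ‖w4‖)⁻¹ • (‖w1‖ • y1 + ‖w2‖ • y2 + ‖w3‖ • y3 + ‖w4‖ • y4)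
    with hm
  have hm' : (‖w1‖ + ‖w2‖ + ‖w3‖ + ‖w4‖) • m = ‖w1‖ • y1 + ‖w2‖ • y2 + ‖w3‖ • y3 + ‖w4‖ • y4 := by
    rw [hm, smul_smul, mul_inv_cancel₀ hP.ne', one_smul]
  clear_value m
  obtain ⟨z1, rfl⟩ : ∃ z, y1 = z + m := ⟨y1 - m, by abel⟩
  obtain ⟨z2, rfl⟩ : ∃ z, y2 = z + m := ⟨y2 - m, by abel⟩
  obtain ⟨z3, rfl⟩ : ∃ z, y3 = z + m := ⟨y3 - m, by abel⟩
  obtain ⟨z4, rfl⟩ : ∃ z, y4 = z + m := ⟨y4 - m, by abel⟩
  rw [add_sub_add_right_eq_sub] at h12 h13 h14 h23 h24 h34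
  have hz : ‖w1‖ • z1 + ‖w2‖ • z2 + ‖w3‖ • z3 + ‖w4‖ • z4 = 0 := by
    have : ‖w1‖ • z1 + ‖w2‖ • z2 + ‖w3‖ • z3 + ‖w4‖ • z4 =
      (‖w1‖ • (z1 + m) + ‖w2‖ • (z2 + m) + ‖w3‖ • (z3 + m) + ‖w4‖ • (z4 + m)) -
        (‖w1‖ + ‖w2‖ + ‖w3‖ + ‖w4‖) • m := by module
    rw [this, hm', sub_self]
  have sq : ∀ x y : E, ‖x - y‖ ≤ D → ‖x‖ ^ 2 - 2 * ⟪x, y⟫_ℝ + ‖y‖ ^ 2 ≤ D ^ 2 := by
    intro x y h
    rw [← norm_sub_sq_real]; exact pow_le_pow_left₀ (norm_nonneg _) h 2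
  refine ⟨‖w1‖ * ‖z1‖ + ‖w2‖ * ‖z2‖ + ‖w3‖ * ‖z3‖ + ‖w4‖ * ‖z4‖, by positivity, ?_, ?_⟩
  · have e0 : ⟪w1 + w2 + w3 + w4, m⟫_ℝ = 0 := by rw [hs, inner_zero_left]
    simp only [inner_add_left] at e0
    simp only [inner_add_right]
    have a1 := (abs_le.mp (abs_real_inner_le_norm w1 z1)).1
    have a2 := (abs_le.mp (abs_real_inner_le_norm w2 z2)).1
    have a3 := (abs_le.mp (abs_real_inner_le_norm w3 z3)).1
    have a4 := (abs_le.mp (abs_real_inner_le_norm w4 z4)).1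
    linarith
  · refine quad_scalar _ _ _ _ _ _ _ _ _ _ _ _ _ _ D (norm_nonneg _) (norm_nonneg _) (norm_nonneg _)
      (norm_nonneg _) ?_ (sq _ _ h12) (sq _ _ h13) (sq _ _ h14) (sq _ _ h23) (sq _ _ h24) (sq _ _ h34)
    have e0 : ⟪‖w1‖ • z1 + ‖w2‖ • z2 + ‖w3‖ • z3 + ‖w4‖ • z4,
      ‖w1‖ • z1 + ‖w2‖ • z2 + ‖w3‖ • z3 + ‖w4‖ • z4⟫_ℝ = 0 := by rw [hz, inner_zero_left]
    simp only [inner_add_left, inner_add_right, real_inner_smul_left, real_inner_smul_right,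
      real_inner_self_eq_norm_sq, real_inner_comm z1 z2, real_inner_comm z1 z3,
      real_inner_comm z1 z4, real_inner_comm z2 z3, real_inner_comm z2 z4,
      real_inner_comm z3 z4, norm_smul, norm_norm] at e0
    linarith

theorem quad_fin (a b c d M D : ℝ) (ha : 0 ≤ a) (hb : 0 ≤ b) (hc : 0 ≤ c) (hd : 0 ≤ d)
    (ha2 : a ≤ 2) (hb2 : b ≤ 2) (hc2 : c ≤ 2) (hd2 : d ≤ 2)
    (hsq : 8 ≤ a ^ 2 + b ^ 2 + c ^ 2 + d ^ 2) (hD0 : 0 ≤ D) (hD1 : D ≤ 1)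
    (hM : M ^ 2 ≤ D ^ 2 * (a * b + a * c + a * d + b * c + b * d + c * d))
    (h : a + b + c + d - M ≤ 4 - 2 * D) :
    (a = 0 ∨ a = 2) ∧ (a = 2 ∨ b = 2 ∨ c = 2 ∨ d = 2) := by
  have k1 := mul_nonneg ha (sub_nonneg.mpr ha2)
  have k2 := mul_nonneg hb (sub_nonneg.mpr hb2)
  have k3 := mul_nonneg hc (sub_nonneg.mpr hc2)
  have k4 := mul_nonneg hd (sub_nonneg.mpr hd2)
  have hP : a + b + c + d ≤ 4 := by
    by_contra hc
    push Not at hc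
    obtain ⟨t, ht⟩ : ∃ t, a + b + c + d = 4 + t := ⟨a + b + c + d - 4, by ring⟩
    have ht0 : 0 < t := by linarith
    have e1 : a * b + a * c + a * d + b * c + b * d + c * d ≤ ((4 + t) ^ 2 - 8) / 2 := by
      rw [← ht]; linarith
    have e2 := mul_le_mul_of_nonneg_left e1 (sq_nonneg D)
    have e3 : (t + 2 * D) ^ 2 ≤ M ^ 2 := pow_le_pow_left₀ (by linarith) (by linarith) 2
    have e4 : 0 ≤ t * D * (1 - D) := mul_nonneg (mul_nonneg ht0.le hD0) (by linarith)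
    have e5 : D ^ 2 ≤ 1 := by nlinarith
    have e6 : t ^ 2 * D ^ 2 ≤ t ^ 2 * 1 := mul_le_mul_of_nonneg_left e5 (sq_nonneg t)
    have e7 : 0 < t ^ 2 := by positivity
    linarith
  have z1 : a * (2 - a) = 0 := by linarith
  have z2 : b * (2 - b) = 0 := by linarith
  have z3 : c * (2 - c) = 0 := by linarith
  have z4 : d * (2 - d) = 0 := by linarith
  rcases mul_eq_zero.mp z1 with u1 | u1
  · refine ⟨Or.inl u1, ?_⟩
    rcases mul_eq_zero.mp z2 with u2 | u2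
    · rcases mul_eq_zero.mp z3 with u3 | u3
      · rcases mul_eq_zero.mp z4 with u4 | u4
        · rw [u1, u2, u3, u4] at hsq; norm_num at hsq
        · right; right; right; linarith
      · right; right; left; linarith
    · right; left; linarith
  · exact ⟨Or.inr (by linarith), Or.inl (by linarith)⟩

theorem anti_of_two (a b : E) (ha : ‖a‖ = 1) (hb : ‖b‖ = 1) (h : ‖a - b‖ = 2) : b = -a := by
  have h1 := norm_sub_sq_real a b
  have h2 := norm_add_sq_real a b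
  rw [h, ha, hb] at h1
  rw [ha, hb] at h2
  have h3 : ‖a + b‖ ^ 2 = 0 := by linarith
  have h4 : a + b = 0 := norm_eq_zero.mp (pow_eq_zero_iff two_ne_zero |>.mp h3)
  exact eq_neg_of_add_eq_zero_right h4

theorem quad (a b c d y1 y2 y3 y4 : E) (D : ℝ) (ha : ‖a‖ = 1) (hb : ‖b‖ = 1) (hc : ‖c‖ = 1)
    (hd : ‖d‖ = 1) (hin : ⟪a + c, b + d⟫_ℝ ≤ 0) (hD1 : D ≤ 1)
    (h12 : ‖y1 - y2‖ ≤ D) (h13 : ‖y1 - y3‖ ≤ D) (h14 : ‖y1 - y4‖ ≤ D) (h23 : ‖y2 - y3‖ ≤ D)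
    (h24 : ‖y2 - y4‖ ≤ D) (h34 : ‖y3 - y4‖ ≤ D)
    (h : ‖a - b‖ + ‖b - c‖ + ‖c - d‖ + ‖d - a‖ +
      (⟪a - b, y1⟫_ℝ + ⟪b - c, y2⟫_ℝ + ⟪c - d, y3⟫_ℝ + ⟪d - a, y4⟫_ℝ) ≤ 4 - 2 * D) :
    (a = b ∨ b = -a) ∧ (b = -a ∨ c = -b ∨ d = -c ∨ a = -d) := by
  have hD0 : 0 ≤ D := (norm_nonneg _).trans h12
  have le2 : ∀ x y : E, ‖x‖ = 1 → ‖y‖ = 1 → ‖x - y‖ ≤ 2 := by
    intro x y hx hy
    have := norm_sub_le x y
    linarith
  have hsq : 8 ≤ ‖a - b‖ ^ 2 + ‖b - c‖ ^ 2 + ‖c - d‖ ^ 2 + ‖d - a‖ ^ 2 := by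
    simp only [norm_sub_sq_real, ha, hb, hc, hd]
    simp only [inner_add_left, inner_add_right] at hin
    rw [real_inner_comm b c] at hin
    rw [real_inner_comm a d]
    linarith
  have hP : 0 < ‖a - b‖ + ‖b - c‖ + ‖c - d‖ + ‖d - a‖ := by
    have k1 := mul_nonneg (norm_nonneg (a - b)) (sub_nonneg.mpr (le2 a b ha hb))
    have k2 := mul_nonneg (norm_nonneg (b - c)) (sub_nonneg.mpr (le2 b c hb hc))
    have k3 := mul_nonneg (norm_nonneg (c - d)) (sub_nonneg.mpr (le2 c d hc hd))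
    have k4 := mul_nonneg (norm_nonneg (d - a)) (sub_nonneg.mpr (le2 d a hd ha))
    linarith
  obtain ⟨M, -, hM1, hM2⟩ := quad_vec (a - b) (b - c) (c - d) (d - a) y1 y2 y3 y4 D (by abel) hP
    h12 h13 h14 h23 h24 h34
  obtain ⟨r1, r2⟩ := quad_fin _ _ _ _ M D (norm_nonneg _) (norm_nonneg _) (norm_nonneg _)
    (norm_nonneg _) (le2 a b ha hb) (le2 b c hb hc) (le2 c d hc hd) (le2 d a hd ha) hsq hD0 hD1 hM2
    (by linarith)
  refine ⟨r1.imp (fun h => sub_eq_zero.mp (norm_eq_zero.mp h)) (anti_of_two a b ha hb), ?_⟩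
  exact r2.imp (anti_of_two a b ha hb) (Or.imp (anti_of_two b c hb hc)
    (Or.imp (anti_of_two c d hc hd) (anti_of_two d a hd ha)))

theorem fin2 (e : ℕ → E) (n : ℕ) (hn : 2 ≤ n) (he : ∀ i, ‖e i‖ = 1) (hp : ∀ i, e (i + n) = e i)
    (Y : Set E) (D : ℝ) (hD : ∀ y ∈ Y, ∀ y' ∈ Y, ‖y - y'‖ ≤ D) (hD2 : D < 2)
    (hT : T4 e n Y (4 - 2 * D))
    (step : ∀ x y, x < y → y ≤ x + n → e y = -e x → e (x + 1) = -e x)
    (ex : ∃ x y, x < y ∧ y ≤ x + n ∧ e y = -e x) : n = 2 := by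
  obtain ⟨x, y, h1, h2, h3⟩ := ex
  have s1 := step x y h1 h2 h3
  have s2 : e (x + 1 + 1) = -e (x + 1) :=
    step (x + 1) (x + n) (by omega) (by omega) (by rw [hp, s1, neg_neg])
  have s3 : e (x + 1 + 1 + 1) = -e (x + 1 + 1) :=
    step (x + 1 + 1) (x + 1 + n) (by omega) (by omega) (by rw [hp, s2, neg_neg])
  by_contra hne
  obtain ⟨y1, hy1, y2, hy2, y3, hy3, y4, hy4, h⟩ :=
    hT x (x + 1) (x + 1 + 1) (x + 1 + 1 + 1) (by omega) (by omega) (by omega) (by omega)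
  rw [s3, s2, s1, neg_neg] at h
  have hx := he x
  generalize e x = u at h hx
  have a1 : u - -u = (2 : ℝ) • u := by module
  have a2 : -u - u = -((2 : ℝ) • u) := by module
  rw [a1, a2] at h
  simp only [norm_neg, norm_smul, hx, inner_neg_left, real_inner_smul_left, Real.norm_eq_abs] at h
  have b1 := real_inner_le_norm u (y2 - y1)
  have b2 := real_inner_le_norm u (y4 - y3)
  rw [hx, one_mul, inner_sub_right] at b1 b2
  have c1 := hD y2 hy2 y1 hy1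
  have c2 := hD y4 hy4 y3 hy3
  norm_num at h
  linarith

theorem exists_quad (f l : ℕ → ℝ) (n c : ℕ) (hc : c < n) (hl : ∀ i, 0 < l i)
    (h0 : ∑ i ∈ Finset.range n, l i * f i = 0)
    (h1 : 2 * ∑ i ∈ Finset.range c, l i ≤ ∑ i ∈ Finset.range n, l i)
    (h2 : ∑ i ∈ Finset.range n, l i ≤ 2 * ∑ i ∈ Finset.range (c + 1), l i) :
    ∃ b d, b ≤ c ∧ c ≤ d ∧ d < n ∧ f b + f d ≤ 0 := by
  obtain ⟨b, hb, hb'⟩ := Finset.exists_min_image (Finset.range (c + 1)) f ⟨0, by simp⟩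
  obtain ⟨d, hd, hd'⟩ := Finset.exists_min_image (Finset.Ico c n) f ⟨c, by simp [hc]⟩
  rw [Finset.mem_range] at hb
  rw [Finset.mem_Ico] at hd
  refine ⟨b, d, by omega, hd.1, hd.2, ?_⟩
  have s1 := Finset.sum_range_add_sum_Ico (fun i => l i * f i) (show c + 1 ≤ n by omega)
  have s2 := Finset.sum_range_add_sum_Ico l (show c + 1 ≤ n by omega)
  rw [Finset.sum_range_succ] at s1 s2 h2
  have s3 : (∑ i ∈ Finset.range c, l i) * f b ≤ ∑ i ∈ Finset.range c, l i * f i := by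
    rw [Finset.sum_mul]
    refine Finset.sum_le_sum fun i hi => mul_le_mul_of_nonneg_left (hb' i ?_) (hl i).le
    rw [Finset.mem_range] at hi ⊢; omega
  have s4 : (∑ i ∈ Finset.Ico (c + 1) n, l i) * f d ≤ ∑ i ∈ Finset.Ico (c + 1) n, l i * f i := by
    rw [Finset.sum_mul]
    refine Finset.sum_le_sum fun i hi => mul_le_mul_of_nonneg_left (hd' i ?_) (hl i).le
    rw [Finset.mem_Ico] at hi ⊢; omega
  have s5 := hb' c (by simp)
  have s6 := hd' c (by simp [hc])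
  have hL : 0 < ∑ i ∈ Finset.range n, l i :=
    Finset.sum_pos (fun i _ => hl i) ⟨c, by simp [hc]⟩
  generalize ∑ i ∈ Finset.range n, l i = L at *
  generalize ∑ i ∈ Finset.range c, l i = S at *
  generalize ∑ i ∈ Finset.Ico (c + 1) n, l i = U at *
  have s7 := mul_le_mul_of_nonneg_left s5 (show 0 ≤ L / 2 - S by linarith)
  have s8 := mul_le_mul_of_nonneg_left s6 (show 0 ≤ S + l c - L / 2 by linarith)
  have s9 : U * f d = (L - S - l c) * f d := by rw [← s2]; ring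
  have : L / 2 * (f b + f d) ≤ 0 := by linarith
  by_contra hcon
  push Not at hcon
  have := mul_pos (show 0 < L / 2 by linarith) hcon
  linarith

theorem caseA (e : ℕ → E) (l : ℕ → ℝ) (n : ℕ) (hn : 2 ≤ n) (he : ∀ i, ‖e i‖ = 1)
    (hp : ∀ i, e (i + n) = e i) (hne : ∀ i, e (i + 1) ≠ e i) (hl : ∀ i, 0 < l i)
    (h0 : ∑ i ∈ Finset.range n, l i • e i = 0)
    (Y : Set E) (D : ℝ) (hD : ∀ y ∈ Y, ∀ y' ∈ Y, ‖y - y'‖ ≤ D) (hD1 : D ≤ 1)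
    (hT : T4 e n Y (4 - 2 * D)) : n = 2 := by
  have Q : ∀ a b c d : ℕ, a ≤ b → b ≤ c → c ≤ d → d ≤ a + n → ⟪e a + e c, e b + e d⟫_ℝ ≤ 0 →
      (e a = e b ∨ e b = -e a) ∧ (e b = -e a ∨ e c = -e b ∨ e d = -e c ∨ e a = -e d) := by
    intro a b c d h1 h2 h3 h4 h5
    obtain ⟨y1, hy1, y2, hy2, y3, hy3, y4, hy4, h⟩ := hT a b c d h1 h2 h3 h4
    exact quad _ _ _ _ y1 y2 y3 y4 D (he a) (he b) (he c) (he d) h5 hD1 (hD _ hy1 _ hy2)
      (hD _ hy1 _ hy3) (hD _ hy1 _ hy4) (hD _ hy2 _ hy3) (hD _ hy2 _ hy4) (hD _ hy3 _ hy4) h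
  have nn : ∀ x y, x ≤ y → e y = -e x → x < y := by
    intro x y h1 h2
    rcases h1.eq_or_lt with h | h
    · subst h
      have h3 : (2 : ℝ) • e x = 0 := by rw [two_smul]; nth_rewrite 1 [h2]; abel
      have h4 := he x
      rw [(smul_eq_zero.mp h3).resolve_left two_ne_zero, norm_zero] at h4
      norm_num at h4
    · exact h
  refine fin2 e n hn he hp Y D hD (by linarith) hT ?_ ?_
  · intro x y h1 h2 h3
    have := (Q x (x + 1) y y (by omega) (by omega) le_rfl h2 (by rw [h3]; simp)).1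
    exact this.resolve_left (fun h => hne x h.symm)
  · classical
    have hex : ∃ c, ∑ i ∈ Finset.range n, l i ≤ 2 * ∑ i ∈ Finset.range (c + 1), l i := by
      refine ⟨n - 1, ?_⟩
      rw [show n - 1 + 1 = n by omega]
      have : 0 ≤ ∑ i ∈ Finset.range n, l i := Finset.sum_nonneg fun i _ => (hl i).le
      linarith
    have hc1 := Nat.find_spec hex
    have hc2 : Nat.find hex ≤ n - 1 := Nat.find_min' hex (by
      rw [show n - 1 + 1 = n by omega]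
      have : 0 ≤ ∑ i ∈ Finset.range n, l i := Finset.sum_nonneg fun i _ => (hl i).le
      linarith)
    have hc3 : 2 * ∑ i ∈ Finset.range (Nat.find hex), l i ≤ ∑ i ∈ Finset.range n, l i := by
      rcases Nat.eq_zero_or_pos (Nat.find hex) with h | h
      · rw [h]; simp only [Finset.range_zero, Finset.sum_empty, mul_zero]
        exact Finset.sum_nonneg fun i _ => (hl i).le
      · have := Nat.find_min hex (show Nat.find hex - 1 < Nat.find hex by omega)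
        rw [show Nat.find hex - 1 + 1 = Nat.find hex by omega] at this
        exact (not_le.mp this).le
    generalize Nat.find hex = c at hc1 hc2 hc3
    obtain ⟨b, d, hb, hd, hdn, hf⟩ := exists_quad (fun i => ⟪e 0 + e c, e i⟫_ℝ) l n c (by omega) hl
      (by
        have : ⟪e 0 + e c, ∑ i ∈ Finset.range n, l i • e i⟫_ℝ = 0 := by rw [h0, inner_zero_right]
        rw [inner_sum] at this
        simpa only [real_inner_smul_right] using this) hc3 hc1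
    rcases (Q 0 b c d (by omega) hb hd (by omega) (by rw [inner_add_right]; exact hf)).2 with
      h | h | h | h
    · exact ⟨0, b, nn _ _ (by omega) h, by omega, h⟩
    · exact ⟨b, c, nn _ _ hb h, by omega, h⟩
    · exact ⟨c, d, nn _ _ hd h, by omega, h⟩
    · exact ⟨d, 0 + n, by omega, by omega, by rw [hp]; exact h⟩

end Pool.Agent.H.MP_17bf10_co
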