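import Pool.Agent.H.MP_17bf10_co.B

set_option autoImplicit false
open scoped InnerProductSpace
namespace Pool.Agent.H.MP_17bf10_co

section gen
variable {E : Type*} [NormedAddCommGroup E] [InnerProductSpace ℝ E]

theorem jung_scalar (y z g : ℝ) (h1 : z - 2 * g + y ≤ 1) (h2 : 2 * g ≤ y) (h3 : 2 * g ≤ z) :
    ∃ μ ν : ℝ, μ ^ 2 * z + 2 * (μ * ν * g) + ν ^ 2 * y ≤ 1 / 3 ∧
      (μ - 1) ^ 2 * z + 2 * ((μ - 1) * ν * g) + ν ^ 2 * y ≤ 1 / 3 ∧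
      μ ^ 2 * z + 2 * (μ * (ν - 1) * g) + (ν - 1) ^ 2 * y ≤ 1 / 3 := by
  rcases le_or_gt g 0 with hg | hg
  · exact ⟨1 / 2, 1 / 2, by linarith, by linarith, by linarith⟩
  · have hy : 0 < y := by linarith
    have hz : 0 < z := by linarith
    have h4 : (2 * g) * (2 * g) ≤ y * z := mul_le_mul h2 h3 (by linarith) hy.le
    have hyz : 0 < y * z := mul_pos hy hz
    have hΔ : 0 < y * z - g ^ 2 := by linarith
    have key : (z - 2 * g + y) * (y * z) / (4 * (y * z - g ^ 2)) ≤ 1 / 3 := by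
      rw [div_le_div_iff₀ (by linarith) (by norm_num)]
      have := mul_le_mul_of_nonneg_right h1 hyz.le
      linarith
    refine ⟨y * (z - g) / (2 * (y * z - g ^ 2)), z * (y - g) / (2 * (y * z - g ^ 2)),
      le_trans (le_of_eq ?_) key, le_trans (le_of_eq ?_) key, le_trans (le_of_eq ?_) key⟩ <;>
    · field_simp; ring

theorem jung3' (a b c : E) (hab : ‖b - a‖ ≤ ‖b - c‖) (hac : ‖c - a‖ ≤ ‖b - c‖) (h : ‖b - c‖ ≤ 1) :
    ∃ o : E, ‖o - a‖ ≤ 0.5774 ∧ ‖o - b‖ ≤ 0.5774 ∧ ‖o - c‖ ≤ 0.5774 := by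
  obtain ⟨u, rfl⟩ : ∃ u, b = a + u := ⟨b - a, by abel⟩
  obtain ⟨v, rfl⟩ : ∃ v, c = a + v := ⟨c - a, by abel⟩
  rw [add_sub_add_left_eq_sub] at hab hac h
  rw [add_sub_cancel_left] at hab hac
  have e := norm_sub_sq_real u v
  have h1 : ‖u - v‖ ^ 2 ≤ 1 := by
    have := pow_le_pow_left₀ (norm_nonneg _) h 2
    linarith
  have h2 := pow_le_pow_left₀ (norm_nonneg _) hab 2
  have h3 := pow_le_pow_left₀ (norm_nonneg _) hac 2
  obtain ⟨μ, ν, k1, k2, k3⟩ := jung_scalar (‖v‖ ^ 2) (‖u‖ ^ 2) ⟪u, v⟫_ℝ (by linarith) (by linarith)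
    (by linarith)
  have q : ∀ s t : ℝ, s ^ 2 * ‖u‖ ^ 2 + 2 * (s * t * ⟪u, v⟫_ℝ) + t ^ 2 * ‖v‖ ^ 2 ≤ 1 / 3 →
      ‖s • u + t • v‖ ≤ 0.5774 := by
    intro s t hst
    have e1 : ‖s • u + t • v‖ ^ 2 ≤ 0.5774 ^ 2 := by
      rw [norm_add_sq_real, norm_smul, norm_smul, mul_pow, mul_pow, Real.norm_eq_abs,
        Real.norm_eq_abs, sq_abs, sq_abs, real_inner_smul_left, real_inner_smul_right]
      linarith
    exact (pow_le_pow_iff_left₀ (norm_nonneg _) (by norm_num) two_ne_zero).mp e1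
  refine ⟨a + (μ • u + ν • v), ?_, ?_, ?_⟩
  · rw [add_sub_cancel_left]; exact q _ _ k1
  · have : a + (μ • u + ν • v) - (a + u) = (μ - 1) • u + ν • v := by module
    rw [this]; exact q _ _ k2
  · have : a + (μ • u + ν • v) - (a + v) = μ • u + (ν - 1) • v := by module
    rw [this]; exact q _ _ k3

theorem jung3 (a b c : E) (hab : ‖a - b‖ ≤ 1) (hac : ‖a - c‖ ≤ 1) (hbc : ‖b - c‖ ≤ 1) :
    ∃ o : E, ‖o - a‖ ≤ 0.5774 ∧ ‖o - b‖ ≤ 0.5774 ∧ ‖o - c‖ ≤ 0.5774 := by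
  have e1 := norm_sub_rev a b
  have e2 := norm_sub_rev a c
  have e3 := norm_sub_rev b c
  by_cases h1 : ‖a - b‖ ≤ ‖b - c‖ ∧ ‖a - c‖ ≤ ‖b - c‖
  · exact jung3' a b c (by linarith [h1.1]) (by linarith [h1.2]) hbc
  by_cases h2 : ‖a - b‖ ≤ ‖a - c‖ ∧ ‖b - c‖ ≤ ‖a - c‖
  · obtain ⟨o, k1, k2, k3⟩ := jung3' b a c h2.1 (by linarith [h2.2]) hac
    exact ⟨o, k2, k1, k3⟩
  · have h3 : ‖a - c‖ ≤ ‖a - b‖ ∧ ‖b - c‖ ≤ ‖a - b‖ := by
      rw [not_and_or, not_le, not_le] at h1 h2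
      rcases h1 with h1 | h1 <;> rcases h2 with h2 | h2 <;> constructor <;> linarith
    obtain ⟨o, k1, k2, k3⟩ := jung3' c a b h3.1 h3.2 hab
    exact ⟨o, k2, k3, k1⟩

theorem ineqI (α β γ N : ℝ) (hγ : 0 < γ) (h1 : γ ≤ α) (h2 : γ ≤ β) (hα : α ≤ 2) (hβ : β ≤ 2)
    (h8 : 8 ≤ α ^ 2 + β ^ 2 + γ ^ 2) (hN : N ^ 2 = 2 * α ^ 2 + 2 * β ^ 2 - γ ^ 2) :
    N / 2 < α + β + γ / 8 - 2 := by
  obtain ⟨a, rfl⟩ : ∃ a, α = 2 - a := ⟨2 - α, by ring⟩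
  obtain ⟨b, rfl⟩ : ∃ b, β = 2 - b := ⟨2 - β, by ring⟩
  have ha : 0 ≤ a := by linarith
  have hb : 0 ≤ b := by linarith
  have hpos : 0 < 2 - a + (2 - b) + γ / 8 - 2 := by
    have k1 := mul_nonneg ha (show 0 ≤ 2 - a by linarith)
    have k2 := mul_nonneg hb (show 0 ≤ 2 - b by linarith)
    have k3 := mul_nonneg (show 0 ≤ 2 - γ by linarith) (show 0 ≤ 2 + γ by linarith)
    linarith
  have hE : (N / 2) ^ 2 < (2 - a + (2 - b) + γ / 8 - 2) ^ 2 := by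
    have hs : ∀ m : ℝ, 0 < (γ / 8 - m) ^ 2 + m ^ 2 := by
      intro m
      rcases eq_or_ne m 0 with h | h
      · rw [h]; simp only [sub_zero]; positivity
      · positivity
    rcases le_total a b with hab | hab
    · have k1 := mul_nonneg hγ.le (show 0 ≤ 2 - b - γ by linarith)
      have k2 := mul_nonneg ha (sub_nonneg.mpr hab)
      have k3 := hs a
      linarith
    · have k1 := mul_nonneg hγ.le (show 0 ≤ 2 - a - γ by linarith)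
      have k2 := mul_nonneg hb (sub_nonneg.mpr hab)
      have k3 := hs b
      linarith
  exact lt_of_pow_lt_pow_left₀ 2 hpos.le hE

theorem nscalar (α β γ N G s D : ℝ) (hγ : 0 < γ) (h1 : γ ≤ α) (h2 : γ ≤ β) (hα : α ≤ 2)
    (hβ : β ≤ 2) (h8 : 8 ≤ α ^ 2 + β ^ 2 + γ ^ 2) (hN0 : 0 ≤ N)
    (hN : N ^ 2 = 2 * α ^ 2 + 2 * β ^ 2 - γ ^ 2) (_hs0 : 0 ≤ s)
    (hG : G ^ 2 + s ^ 2 ≤ 4 * 0.5774 ^ 2) (hsD : s ≤ D) (hD : 1 ≤ D) :
    4 - 2 * D < α + β + γ - γ * 0.5774 - γ * G / 2 - N * s / 2 := by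
  have hI := ineqI α β γ N hγ h1 h2 hα hβ h8 hN
  have a1 := pow_le_pow_left₀ hγ.le h1 2
  have a2 := pow_le_pow_left₀ hγ.le h2 2
  have a3 := pow_le_pow_left₀ (hγ.le.trans h1) hα 2
  have a4 := pow_le_pow_left₀ (hγ.le.trans h2) hβ 2
  have hN1 : 1.72 * γ ≤ N := (abs_le_of_sq_le_sq' (by linarith [sq_nonneg γ]) hN0).2
  have hN2 : N ≤ 4 := (abs_le_of_sq_le_sq' (by linarith [sq_nonneg γ]) (by norm_num)).2
  rcases le_total s 1 with hs | hs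
  · have hG1 : G ≤ 0.5952 + 1.72 * (1 - s) :=
      (abs_le_of_sq_le_sq' (by linarith [sq_nonneg (1 - s)]) (by linarith)).2
    have k1 := mul_le_mul_of_nonneg_left hG1 hγ.le
    have k2 := mul_le_mul_of_nonneg_right hN1 (sub_nonneg.mpr hs)
    linarith
  · have hs2 : 1 ^ 2 ≤ s ^ 2 := pow_le_pow_left₀ (by norm_num) hs 2
    have hG1 : G ≤ 0.5952 := (abs_le_of_sq_le_sq' (by linarith) (by norm_num)).2
    have k1 := mul_le_mul_of_nonneg_left hG1 hγ.le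
    have k2 := mul_le_mul_of_nonneg_right hN2 (sub_nonneg.mpr hs)
    linarith

theorem nvec' (w1 w2 w3 y1 y2 y3 o : E) (D : ℝ) (hs : w1 + w2 + w3 = 0) (h0 : w3 ≠ 0)
    (h1 : ‖w3‖ ≤ ‖w1‖) (h2 : ‖w3‖ ≤ ‖w2‖) (hα : ‖w1‖ ≤ 2) (hβ : ‖w2‖ ≤ 2)
    (h8 : 8 ≤ ‖w1‖ ^ 2 + ‖w2‖ ^ 2 + ‖w3‖ ^ 2) (k1 : ‖o - y1‖ ≤ 0.5774) (k2 : ‖o - y2‖ ≤ 0.5774)
    (k3 : ‖o - y3‖ ≤ 0.5774) (h12 : ‖y1 - y2‖ ≤ D) (hD : 1 ≤ D) :
    4 - 2 * D < ‖w1‖ + ‖w2‖ + ‖w3‖ + (⟪w1, y1⟫_ℝ + ⟪w2, y2⟫_ℝ + ⟪w3, y3⟫_ℝ) := by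
  obtain ⟨z1, rfl⟩ : ∃ z, y1 = o + z := ⟨y1 - o, by abel⟩
  obtain ⟨z2, rfl⟩ : ∃ z, y2 = o + z := ⟨y2 - o, by abel⟩
  obtain ⟨z3, rfl⟩ : ∃ z, y3 = o + z := ⟨y3 - o, by abel⟩
  rw [sub_add_cancel_left, norm_neg] at k1 k2 k3
  rw [add_sub_add_left_eq_sub] at h12
  have e3 : w1 + w2 = -w3 := eq_neg_of_add_eq_zero_left hs
  have n1 := norm_add_sq_real w1 w2
  have n2 := norm_sub_sq_real w1 w2
  rw [e3, norm_neg] at n1
  have n3 := norm_add_sq_real z1 z2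
  have n4 := norm_sub_sq_real z1 z2
  have q1 := pow_le_pow_left₀ (norm_nonneg _) k1 2
  have q2 := pow_le_pow_left₀ (norm_nonneg _) k2 2
  have key := nscalar ‖w1‖ ‖w2‖ ‖w3‖ ‖w1 - w2‖ ‖z1 + z2‖ ‖z1 - z2‖ D (norm_pos_iff.mpr h0) h1 h2 hα hβ
    h8 (norm_nonneg _) (by linarith) (norm_nonneg _) (by linarith) h12 hD
  have e0 : ⟪w1 + w2 + w3, o⟫_ℝ = 0 := by rw [hs, inner_zero_left]
  have a1 := (abs_le.mp (abs_real_inner_le_norm (w1 + w2) (z1 + z2))).1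
  have a2 := (abs_le.mp (abs_real_inner_le_norm (w1 - w2) (z1 - z2))).1
  have a3 := (abs_le.mp (abs_real_inner_le_norm w3 z3)).1
  have a4 := mul_le_mul_of_nonneg_left k3 (norm_nonneg w3)
  have a5 : ‖w1 + w2‖ = ‖w3‖ := by rw [e3, norm_neg]
  rw [a5] at a1
  simp only [inner_add_left, inner_add_right, inner_sub_left, inner_sub_right] at e0 a1 a2 ⊢
  linarith

theorem nvec (a b c y1 y2 y3 o : E) (D : ℝ) (ha : ‖a‖ = 1) (hb : ‖b‖ = 1) (hc : ‖c‖ = 1)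
    (hab : a ≠ b) (hbc : b ≠ c) (hca : c ≠ a)
    (hin : ⟪a, b⟫_ℝ + ⟪b, c⟫_ℝ + ⟪c, a⟫_ℝ ≤ -1) (k1 : ‖o - y1‖ ≤ 0.5774) (k2 : ‖o - y2‖ ≤ 0.5774)
    (k3 : ‖o - y3‖ ≤ 0.5774) (h12 : ‖y1 - y2‖ ≤ D) (h23 : ‖y2 - y3‖ ≤ D) (h31 : ‖y3 - y1‖ ≤ D)
    (hD : 1 ≤ D) :
    4 - 2 * D < ‖a - b‖ + ‖b - c‖ + ‖c - a‖ + (⟪a - b, y1⟫_ℝ + ⟪b - c, y2⟫_ℝ + ⟪c - a, y3⟫_ℝ) := by
  have le2 : ∀ x y : E, ‖x‖ = 1 → ‖y‖ = 1 → ‖x - y‖ ≤ 2 := by
    intro x y hx hy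
    have := norm_sub_le x y
    linarith
  have hsq : 8 ≤ ‖a - b‖ ^ 2 + ‖b - c‖ ^ 2 + ‖c - a‖ ^ 2 := by
    simp only [norm_sub_sq_real, ha, hb, hc]
    linarith
  have l1 := le2 a b ha hb
  have l2 := le2 b c hb hc
  have l3 := le2 c a hc ha
  by_cases h1 : ‖c - a‖ ≤ ‖a - b‖ ∧ ‖c - a‖ ≤ ‖b - c‖
  · exact nvec' _ _ _ y1 y2 y3 o D (by abel) (sub_ne_zero.mpr hca) h1.1 h1.2 l1 l2 hsq k1 k2 k3 h12 hD
  by_cases h2 : ‖a - b‖ ≤ ‖b - c‖ ∧ ‖a - b‖ ≤ ‖c - a‖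
  · have := nvec' _ _ _ y2 y3 y1 o D (by abel) (sub_ne_zero.mpr hab) h2.1 h2.2 l2 l3 (by linarith)
      k2 k3 k1 h23 hD
    linarith
  · have h3 : ‖b - c‖ ≤ ‖c - a‖ ∧ ‖b - c‖ ≤ ‖a - b‖ := by
      rw [not_and_or, not_le, not_le] at h1 h2
      rcases h1 with h1 | h1 <;> rcases h2 with h2 | h2 <;> constructor <;> linarith
    have := nvec' _ _ _ y3 y1 y2 o D (by abel) (sub_ne_zero.mpr hbc) h3.1 h3.2 l3 l1 (by linarith)
      k3 k1 k2 h31 hD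
    linarith

theorem pl_scalar (t r s : ℝ) (hG : (1 - t ^ 2) * (1 - s ^ 2) = (r - t * s) ^ 2) (h1 : r - t * s < 0)
    (h2 : t ≤ r) (h3 : -1 ≤ t) (h4 : t ≤ 0) (h5 : -1 ≤ s) (h6 : s ≤ 1) : 1 + t + r + s ≤ 0 := by
  have hs : s < 1 := by
    rcases h6.eq_or_lt with h | h
    · subst h; linarith
    · exact h
  have a1 : (t * s - r) ^ 2 ≤ (t * s - t) ^ 2 := pow_le_pow_left₀ (by linarith) (by linarith) 2
  have a2 : (1 - s) * ((1 - t ^ 2) * (1 + s)) ≤ (1 - s) * (t ^ 2 * (1 - s)) := by linarith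
  have a3 := le_of_mul_le_mul_left a2 (by linarith)
  have a4 := mul_nonneg (show 0 ≤ 1 - 2 * t by linarith) (show 0 ≤ t + 1 by linarith)
  have a5 : t + s ≤ 0 := by linarith
  have a6 : 0 ≤ (1 + t) * (1 + s) := mul_nonneg (by linarith) (by linarith)
  have a7 := mul_le_mul_of_nonneg_left (show (1 + t) * (1 + s) ≤ (1 - t) * (1 - s) by linarith) a6
  have a8 : (1 + t) * (1 + s) ≤ t * s - r :=
    (abs_le_of_sq_le_sq' (by linarith) (by linarith)).2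
  linarith

end gen

theorem gram (a b c : EuclideanSpace ℝ (Fin 2)) (ha : ‖a‖ = 1) (hb : ‖b‖ = 1) (hc : ‖c‖ = 1) :
    (1 - ⟪a, b⟫_ℝ ^ 2) * (1 - ⟪b, c⟫_ℝ ^ 2) = (⟪a, c⟫_ℝ - ⟪a, b⟫_ℝ * ⟪b, c⟫_ℝ) ^ 2 := by
  have n : ∀ x : EuclideanSpace ℝ (Fin 2), ‖x‖ = 1 → x 0 ^ 2 + x 1 ^ 2 = 1 := by
    intro x hx
    have := EuclideanSpace.real_norm_sq_eq x
    rw [hx, Fin.sum_univ_two] at this
    linarith
  have i : ∀ x y : EuclideanSpace ℝ (Fin 2), ⟪x, y⟫_ℝ = x 0 * y 0 + x 1 * y 1 := by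
    intro x y
    simp [PiLp.inner_apply, Fin.sum_univ_two]; ring
  have h1 := n a ha
  have h2 := n b hb
  have h3 := n c hc
  rw [i, i, i]
  generalize a 0 = a0 at *
  generalize a 1 = a1 at *
  generalize b 0 = b0 at *
  generalize b 1 = b1 at *
  generalize c 0 = c0 at *
  generalize c 1 = c1 at *
  have e1 : 1 - (a0 * b0 + a1 * b1) ^ 2 = (a0 * b1 - a1 * b0) ^ 2 := by
    have : (a0 ^ 2 + a1 ^ 2) * (b0 ^ 2 + b1 ^ 2) = 1 := by rw [h1, h2]; norm_num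
    linarith
  have e2 : 1 - (b0 * c0 + b1 * c1) ^ 2 = (c0 * b1 - c1 * b0) ^ 2 := by
    have : (c0 ^ 2 + c1 ^ 2) * (b0 ^ 2 + b1 ^ 2) = 1 := by rw [h3, h2]; norm_num
    linarith
  have e3 : a0 * c0 + a1 * c1 - (a0 * b0 + a1 * b1) * (b0 * c0 + b1 * c1) =
      (a0 * b1 - a1 * b0) * (c0 * b1 - c1 * b0) := by
    have : (a0 * c0 + a1 * c1) * (b0 ^ 2 + b1 ^ 2) = a0 * c0 + a1 * c1 := by rw [h2, mul_one]
    linarith
  rw [e1, e2, e3]; ring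

theorem jung (C : Finset (EuclideanSpace ℝ (Fin 2))) (h : ∀ c ∈ C, ∀ c' ∈ C, ‖c - c'‖ ≤ 1) :
    ∃ o : EuclideanSpace ℝ (Fin 2), ∀ c ∈ C, ‖o - c‖ ≤ 0.5774 := by
  classical
  obtain ⟨o, ho⟩ := Convex.helly_theorem' (𝕜 := ℝ) (F := fun c => Metric.closedBall c (0.5774 : ℝ))
    (s := C) (fun c _ => convex_closedBall c _) (by
      intro I hI hcard
      rw [finrank_euclideanSpace, Fintype.card_fin] at hcard
      rcases I.eq_empty_or_nonempty with h0 | ⟨a, ha⟩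
      · rw [h0]; exact ⟨0, by simp⟩
      obtain ⟨b, hb, c, hc, hI'⟩ : ∃ b ∈ I, ∃ c ∈ I, ∀ x ∈ I, x = a ∨ x = b ∨ x = c := by
        have h1 : (I.erase a).card ≤ 2 := by rw [Finset.card_erase_of_mem ha]; omega
        rcases (I.erase a).eq_empty_or_nonempty with h0 | ⟨b, hb⟩
        · refine ⟨a, ha, a, ha, fun x hx => ?_⟩
          by_contra hc
          push Not at hc
          have : x ∈ I.erase a := Finset.mem_erase.mpr ⟨hc.1, hx⟩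
          rw [h0] at this; simp at this
        have h2 : ((I.erase a).erase b).card ≤ 1 := by rw [Finset.card_erase_of_mem hb]; omega
        rcases ((I.erase a).erase b).eq_empty_or_nonempty with h0 | ⟨c, hc⟩
        · refine ⟨b, Finset.mem_of_mem_erase hb, a, ha, fun x hx => ?_⟩
          by_contra hc
          push Not at hc
          have : x ∈ (I.erase a).erase b :=
            Finset.mem_erase.mpr ⟨hc.2.1, Finset.mem_erase.mpr ⟨hc.1, hx⟩⟩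
          rw [h0] at this; simp at this
        · refine ⟨b, Finset.mem_of_mem_erase hb, c,
            Finset.mem_of_mem_erase (Finset.mem_of_mem_erase hc), fun x hx => ?_⟩
          by_contra hx'
          push Not at hx'
          exact hx'.2.2 (Finset.card_le_one.mp h2 x
            (Finset.mem_erase.mpr ⟨hx'.2.1, Finset.mem_erase.mpr ⟨hx'.1, hx⟩⟩) c hc)
      obtain ⟨o, k1, k2, k3⟩ := jung3 a b c (h a (hI ha) b (hI hb)) (h a (hI ha) c (hI hc))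
        (h b (hI hb) c (hI hc))
      refine ⟨o, ?_⟩
      simp only [Set.mem_iInter, mem_closedBall_iff_norm]
      intro x hx
      rcases hI' x hx with rfl | rfl | rfl <;> assumption)
  simp only [Set.mem_iInter, mem_closedBall_iff_norm] at ho
  exact ⟨o, ho⟩

theorem caseB (e : ℕ → EuclideanSpace ℝ (Fin 2)) (l : ℕ → ℝ) (n : ℕ) (hn : 2 ≤ n)
    (he : ∀ i, ‖e i‖ = 1)
    (hp : ∀ i, e (i + n) = e i) (hne : ∀ i, e (i + 1) ≠ e i) (hl : ∀ i, 0 < l i)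
    (h0 : ∑ i ∈ Finset.range n, l i • e i = 0)
    (Y : Set (EuclideanSpace ℝ (Fin 2))) (D : ℝ) (hD : ∀ y ∈ Y, ∀ y' ∈ Y, ‖y - y'‖ ≤ D) (hD1 : 1 ≤ D)
    (hD2 : D < 2) (o : EuclideanSpace ℝ (Fin 2)) (ho : ∀ y ∈ Y, ‖o - y‖ ≤ 0.5774)
    (hT : T4 e n Y (4 - 2 * D)) : n = 2 := by
  have Q : ∀ a b c : ℕ, a ≤ b → b ≤ c → c ≤ a + n → e a ≠ e b → e b ≠ e c → e c ≠ e a →
      ⟪e a, e b⟫_ℝ + ⟪e b, e c⟫_ℝ + ⟪e c, e a⟫_ℝ ≤ -1 → False := by
    intro a b c h1 h2 h3 h4 h5 h6 h7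
    obtain ⟨y1, hy1, y2, hy2, y3, -, y4, hy4, h⟩ := hT a b c c h1 h2 le_rfl h3
    rw [sub_self, norm_zero, inner_zero_left] at h
    have := nvec _ _ _ y1 y2 y4 o D (he a) (he b) (he c) h4 h5 h6 h7 (ho _ hy1) (ho _ hy2) (ho _ hy4)
      (hD _ hy1 _ hy2) (hD _ hy2 _ hy4) (hD _ hy4 _ hy1) hD1
    linarith
  have ee : ∀ i, ⟪e i, e i⟫_ℝ = 1 := by
    intro i; rw [real_inner_self_eq_norm_sq, he]; norm_num
  have nn : ∀ x y, e y = -e x → e y ≠ e x := by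
    intro x y h2 h3
    have h4 := ee y
    nth_rewrite 1 [h2] at h4
    rw [h3, inner_neg_left, ee] at h4
    norm_num at h4
  refine fin2 e n hn he hp Y D hD hD2 hT ?_ ?_
  · intro x y h1 h2 h3
    by_contra hc
    refine Q x (x + 1) y (by omega) (by omega) h2 (hne x).symm (by rw [h3]; exact hc) (nn x y h3) ?_
    rw [h3, inner_neg_right, inner_neg_left, ee, real_inner_comm]
    linarith
  · have hsum : ∀ v : EuclideanSpace ℝ (Fin 2), ∑ i ∈ Finset.range n, l i * ⟪v, e i⟫_ℝ = 0 := by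
      intro v
      have : ⟪v, ∑ i ∈ Finset.range n, l i • e i⟫_ℝ = 0 := by rw [h0, inner_zero_right]
      rw [inner_sum] at this
      simpa only [real_inner_smul_right] using this
    have hneg : ∀ v : EuclideanSpace ℝ (Fin 2), 0 < ⟪v, e 0⟫_ℝ → ∃ c, c < n ∧ ⟪v, e c⟫_ℝ < 0 := by
      intro v hv
      by_contra hc
      push Not at hc
      have := Finset.sum_pos' (s := Finset.range n) (f := fun i => l i * ⟪v, e i⟫_ℝ)
        (fun i hi => mul_nonneg (hl i).le (hc i (Finset.mem_range.mp hi)))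
        ⟨0, Finset.mem_range.mpr (by omega), mul_pos (hl 0) hv⟩
      rw [hsum] at this
      exact lt_irrefl _ this
    have bd : ∀ i j, -1 ≤ ⟪e i, e j⟫_ℝ ∧ ⟪e i, e j⟫_ℝ ≤ 1 := by
      intro i j
      have := abs_real_inner_le_norm (e i) (e j)
      rw [he, he, mul_one] at this
      exact abs_le.mp this
    obtain ⟨b, hb, hb'⟩ := Finset.exists_min_image (Finset.range n) (fun i => ⟪e 0, e i⟫_ℝ)
      ⟨0, Finset.mem_range.mpr (by omega)⟩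
    rw [Finset.mem_range] at hb
    have ht0 : ⟪e 0, e b⟫_ℝ < 0 := by
      obtain ⟨c, hc, hc'⟩ := hneg (e 0) (by rw [ee]; norm_num)
      exact (hb' c (Finset.mem_range.mpr hc)).trans_lt hc'
    rcases (bd 0 b).1.eq_or_lt with ht | ht
    · have h1 : e b = -e 0 := by
        have h2 := norm_add_sq_real (e 0) (e b)
        rw [he, he, ← ht] at h2
        have h3 : ‖e 0 + e b‖ ^ 2 = 0 := by linarith
        exact eq_neg_of_add_eq_zero_right (norm_eq_zero.mp (pow_eq_zero_iff two_ne_zero |>.mp h3))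
      refine ⟨0, b, ?_, by omega, h1⟩
      rcases Nat.eq_zero_or_pos b with h | h
      · exact absurd (by rw [h]) (nn 0 b h1)
      · exact h
    · exfalso
      have hq : 0 < 1 - ⟪e 0, e b⟫_ℝ * ⟪e 0, e b⟫_ℝ := by
        have := mul_pos (show 0 < 1 + ⟪e 0, e b⟫_ℝ by linarith) (show 0 < 1 - ⟪e 0, e b⟫_ℝ by linarith)
        linarith
      obtain ⟨c, hc, hc'⟩ := hneg (e 0 - ⟪e 0, e b⟫_ℝ • e b) (by
        rw [inner_sub_left, real_inner_smul_left, ee, real_inner_comm (e 0) (e b)]; exact hq)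
      rw [inner_sub_left, real_inner_smul_left] at hc'
      have key := pl_scalar _ _ _ (gram _ _ _ (he 0) (he b) (he c)) hc'
        (hb' c (Finset.mem_range.mpr hc)) ht.le ht0.le (bd b c).1 (bd b c).2
      have d1 : e 0 ≠ e b := by
        intro h; rw [← h, ee] at ht0; norm_num at ht0
      have d2 : e b ≠ e c := by
        intro h; rw [← h, ee] at hc'; linarith
      have d3 : e c ≠ e 0 := by
        intro h; rw [h, ee, real_inner_comm (e 0) (e b)] at hc'; linarith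
      rcases le_total b c with hbc | hbc
      · exact Q 0 b c (by omega) hbc (by omega) d1 d2 d3 (by
          rw [real_inner_comm (e 0) (e c)]; linarith)
      · exact Q 0 c b (by omega) hbc (by omega) d3.symm d2.symm d1.symm (by
          rw [real_inner_comm (e b) (e c), real_inner_comm (e 0) (e b)]; linarith)

end Pool.Agent.H.MP_17bf10_co
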